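import Mathlib
import Pool.Agent.Helper65_strong.Assemble

/-!
# Biorthogonal systems whose dual parts have weak*-closed partial spans

Every infinite-dimensional normed space `E` with separable dual has a biorthogonal system
`(x n, f n)` with `[x n] = E`, `[f n] = E*` such that for every set `A` of indices the norm-closed
linear span of the `f n`, `n ∈ A`, is weak*-closed; it is the annihilator of the remaining `x j`.
-/

set_option autoImplicit false

namespace Pool.Agent.Results.MP_0543b0_an.WeakStarClosedSpans

universe u v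

open Pool.Agent.Helper65.Strong in
theorem result (𝕜 : Type u) [RCLike 𝕜] (E : Type v) [NormedAddCommGroup E] [NormedSpace 𝕜 E]
    [TopologicalSpace.SeparableSpace (StrongDual 𝕜 E)] (hinf : ¬ FiniteDimensional 𝕜 E) :
    ∃ (x : ℕ → E) (f : ℕ → StrongDual 𝕜 E),
      (∀ i j : ℕ, f i (x j) = if i = j then 1 else 0) ∧
      (Submodule.span 𝕜 (Set.range x)).topologicalClosure = ⊤ ∧
      (Submodule.span 𝕜 (Set.range f)).topologicalClosure = ⊤ ∧
      ∀ A : Set ℕ,
        IsClosed (StrongDual.toWeakDual ''
          ((Submodule.span 𝕜 (f '' A)).topologicalClosure : Set (StrongDual 𝕜 E)) :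
            Set (WeakDual 𝕜 E)) ∧
        ∀ g : StrongDual 𝕜 E,
          g ∈ (Submodule.span 𝕜 (f '' A)).topologicalClosure ↔ ∀ j, j ∉ A → g (x j) = 0 := by
  obtain ⟨x₀, f₀, h1, h2, h3⟩ := exists_two_sided 𝕜 E hinf
  obtain ⟨x, f, hbi, hx, hf, hv⟩ := exists_strong 𝕜 E x₀ f₀ h1 h2 h3
  have hA : ∀ (A : Set ℕ) (g : StrongDual 𝕜 E),
      g ∈ (Submodule.span 𝕜 (f '' A)).topologicalClosure ↔ ∀ j, j ∉ A → g (x j) = 0 := by
    intro A g
    constructor
    · intro hg j hj
      have hcl : IsClosed {g : StrongDual 𝕜 E | g (x j) = 0} :=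
        isClosed_eq (ContinuousLinearMap.apply 𝕜 𝕜 (x j)).continuous continuous_const
      have hsub : ((Submodule.span 𝕜 (f '' A) : Submodule 𝕜 (StrongDual 𝕜 E)) :
          Set (StrongDual 𝕜 E)) ⊆ {g : StrongDual 𝕜 E | g (x j) = 0} := by
        intro g hg
        change g (x j) = 0
        rw [SetLike.mem_coe] at hg
        induction hg using Submodule.span_induction with
        | mem g hg =>
          obtain ⟨i, hi, rfl⟩ := hg
          rw [hbi, if_neg]
          rintro rfl
          exact hj hi
        | zero => rfl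
        | add g g' _ _ hg hg' => rw [_root_.add_apply, hg, hg', add_zero]
        | smul c g _ hg => rw [_root_.smul_apply, hg, smul_zero]
      exact closure_minimal hsub hcl hg
    · intro hg
      have h := hv g
      refine closure_mono ?_ h
      refine Submodule.span_mono (Set.image_mono ?_)
      intro n hn
      by_contra hnA
      exact hn (hg n hnA)
  refine ⟨x, f, hbi, ?_, ?_, fun A => ⟨?_, hA A⟩⟩
  · rw [← Submodule.dense_iff_topologicalClosure_eq_top]
    exact h2.mono hx
  · rw [← Submodule.dense_iff_topologicalClosure_eq_top]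
    exact h3.mono hf
  · have hset : (StrongDual.toWeakDual ''
          ((Submodule.span 𝕜 (f '' A)).topologicalClosure : Set (StrongDual 𝕜 E)) :
            Set (WeakDual 𝕜 E)) = ⋂ j ∈ Aᶜ, {g : WeakDual 𝕜 E | g (x j) = 0} := by
      ext g
      simp only [Set.mem_image, SetLike.mem_coe, Set.mem_iInter, Set.mem_compl_iff]
      constructor
      · rintro ⟨g', hg', rfl⟩ j hj
        exact (hA A g').mp hg' j hj
      · intro hg
        exact ⟨WeakDual.toStrongDual g, (hA A _).mpr fun j hj => hg j hj, by simp⟩
    rw [hset]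
    refine isClosed_biInter fun j _ => ?_
    exact isClosed_eq (WeakDual.eval_continuous (x j)) continuous_const

end Pool.Agent.Results.MP_0543b0_an.WeakStarClosedSpans
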